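import Mathlib
import Pool.Agent.Slir.Degree
import Pool.Agent.Slir.Flat

/-!
Digraphs with bounded degrees: if the tail of every arc has indegree at most `a` and the head of
every arc has outdegree at most `b`, then `N ≥ 2` colours suffice as soon as `a + b ≤ 4` or
`a + b ≤ 2 ^ N - 1`. In particular two colours suffice for all subcubic digraphs.
-/

namespace Pool.Agent.Results.MP_0aaa8d_co.BoundedDegree

open Pool.Agent.Slir

theorem result (V : Type*) [Fintype V] [DecidableEq V] (E : Finset (V × V))
    (hE : ∀ e ∈ E, e.1 ≠ e.2) (N a b : ℕ) (hN : 2 ≤ N)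
    (h : ∀ e ∈ E, indeg E e.1 ≤ a ∧ outdeg E e.2 ≤ b) (hab : a + b ≤ max 4 (2 ^ N - 1)) :
    ∃ f : V × V → Fin N, ∀ i, SLI (E.filter (fun e => f e = i)) := by
  by_cases hlt : a + b < 2 ^ N
  · obtain ⟨m, rfl⟩ : ∃ m, N = 1 + m := ⟨N - 1, by omega⟩
    exact sli_of_degrees E hE 1 m a b one_pos (fun e he => (h e he).1) (fun e he => (h e he).2)
      (by rw [pow_add] at hlt; simpa using hlt)
  · have h4 : a + b ≤ 4 := by
      rcases le_max_iff.1 hab with h1 | h1
      · exact h1
      · omega
    have hN2 : N = 2 := by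
      by_contra hne
      have h3 : 2 ^ 3 ≤ 2 ^ N := Nat.pow_le_pow_right (by norm_num) (by omega)
      omega
    subst hN2
    exact Deg.degree_colouring E hE 0 a (4 - a) (by omega)
      (fun e he => ⟨(h e he).1, (h e he).2.trans (by omega)⟩)

end Pool.Agent.Results.MP_0aaa8d_co.BoundedDegree
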