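import Mathlib
import Pool.Agent.Slir.Extend

/-!
Extension of partial strong locally irregular colourings when the balanced degree rises by a
bounded amount along the uncoloured arcs.
-/

namespace Pool.Agent.Results.MP_0aaa8d_co.BoundedRise

open Pool.Agent.Slir

theorem result (V : Type*) [Fintype V] [DecidableEq V] (E W : Finset (V × V))
    (hE : ∀ e ∈ E, e.1 ≠ e.2) (hWE : W ⊆ E) (c : ℕ) (hc : 1 ≤ c) (g : V × V → Fin c)
    (hU : ∀ e ∈ E \ W, bal E e.2 + 3 ≤ bal E e.1 + 2 * c)
    (hW : ∀ e ∈ W,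
      ((indeg (E \ W) e.1 : ℤ) + outdeg (E \ W) e.2 <
        bal (W.filter (fun a => g a = g e)) e.1 - bal (W.filter (fun a => g a = g e)) e.2) ∨
      ((outdeg (E \ W) e.1 : ℤ) + indeg (E \ W) e.2 <
        bal (W.filter (fun a => g a = g e)) e.2 - bal (W.filter (fun a => g a = g e)) e.1)) :
    ∃ f : V × V → Fin c, (∀ e ∈ W, f e = g e) ∧
      (∀ i, SLI (E.filter (fun e => f e = i))) ∧
      ∀ e ∈ E \ W, bal (E.filter (fun a => f a = f e)) e.2
        < bal (E.filter (fun a => f a = f e)) e.1 := by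
  obtain ⟨n, rfl⟩ : ∃ n, c = n + 1 := ⟨c - 1, by omega⟩
  refine Ext.extend_colouring E W hE hWE g (fun e he => ?_) hW
  have h1 := hU e he
  push_cast at h1
  linarith

end Pool.Agent.Results.MP_0aaa8d_co.BoundedRise
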