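import Mathlib
import Pool.Agent.Slir.Main

/-!
Every digraph has a strong locally irregular arc colouring with eight colours, and with `l` colours
if its skeleton has chromatic number at most `l.choose (l / 2)`.
-/

namespace Pool.Agent.Results.MP_0aaa8d_co.ConstantBound

open Pool.Agent.Slir

theorem result (V : Type*) [Fintype V] [DecidableEq V] (E : Finset (V × V))
    (hE : ∀ e ∈ E, e.1 ≠ e.2) :
    (∃ c : V × V → Fin 8, ∀ i, SLI (E.filter (fun e => c e = i))) ∧
    (∀ l : ℕ, 0 < l → (∃ κ : V → Fin (l.choose (l / 2)), ∀ e ∈ E, κ e.1 ≠ κ e.2) →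
      ∃ c : V × V → Fin l, ∀ i, SLI (E.filter (fun e => c e = i))) :=
  ⟨eight_colours E hE, fun l hl h => few_colours l hl E h⟩

end Pool.Agent.Results.MP_0aaa8d_co.ConstantBound
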