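import Mathlib
import Pool.Agent.Slir.Lin

/-!
For every digraph and every `r`, some linear order of the vertices gives a two-colouring (forward
arcs, backward arcs) in which the balanced degrees of the ends differ by more than `r` for all but
linearly many arcs.
-/

namespace Pool.Agent.Results.MP_0aaa8d_co.LinearExceptions

open Pool.Agent.Slir

theorem result (V : Type*) [Fintype V] [DecidableEq V] (E : Finset (V × V))
    (hE : ∀ e ∈ E, e.1 ≠ e.2) (r : ℕ) :
    ∃ θ : V → ℕ, Function.Injective θ ∧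
      (E.filter (fun e =>
        (θ e.1 < θ e.2 ∧
          |bal (E.filter (fun a => θ a.1 < θ a.2)) e.1
            - bal (E.filter (fun a => θ a.1 < θ a.2)) e.2| ≤ r) ∨
        (θ e.2 < θ e.1 ∧
          |bal (E.filter (fun a => θ a.2 < θ a.1)) e.1
            - bal (E.filter (fun a => θ a.2 < θ a.1)) e.2| ≤ r))).card
      ≤ (2 * r + 1) * (2 * Fintype.card V
        + 2 * (Finset.univ.filter (fun v => ∃ w, (v, w) ∈ E ∧ (w, v) ∈ E)).card) := by
  obtain ⟨M, θ, hinj, hcard⟩ := exists_few_near r E hE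
  refine ⟨fun v => (θ v : ℕ), fun v w h => hinj (Fin.ext h), ?_⟩
  have hne : ∀ e ∈ E, θ e.1 ≠ θ e.2 := fun e he h => hE e he (hinj h)
  have h1 : E.filter (fun a => (θ a.1 : ℕ) < θ a.2) = fwd E θ := by
    unfold fwd
    refine Finset.filter_congr fun e he => ?_
    constructor
    · intro h
      exact le_of_lt (Fin.lt_def.2 h)
    · intro h
      exact Fin.lt_def.1 (lt_of_le_of_ne h (hne e he))
  have h2 : E.filter (fun a => (θ a.2 : ℕ) < θ a.1) = E \ fwd E θ := by
    ext e
    simp only [fwd, Finset.mem_filter, Finset.mem_sdiff, not_and, not_le]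
    constructor
    · rintro ⟨he, h⟩
      exact ⟨he, fun _ => Fin.lt_def.2 h⟩
    · rintro ⟨he, h⟩
      exact ⟨he, Fin.lt_def.1 (h he)⟩
  rw [h1, h2]
  refine le_trans (Finset.card_le_card ?_) (hcard.trans (le_of_eq ?_))
  · intro e he
    simp only [near, Finset.mem_filter] at he ⊢
    refine ⟨he.1, ?_⟩
    rcases he.2 with ⟨h3, h4⟩ | ⟨h3, h4⟩
    · refine Or.inl ⟨?_, h4⟩
      simp only [fwd, Finset.mem_filter]
      exact ⟨he.1, le_of_lt (Fin.lt_def.2 h3)⟩
    · refine Or.inr ⟨?_, h4⟩
      simp only [fwd, Finset.mem_filter, not_and, not_le]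
      exact fun _ => Fin.lt_def.2 h3
  · rw [mul_add]
    rfl

end Pool.Agent.Results.MP_0aaa8d_co.LinearExceptions
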